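import Mathlib
import Pool.Agent.H297R2.LPM.Four

/-!
# Strong four exponentials for products in `ℚ + ℚ log 2 + ℚ iπ`

If `x₁, x₂` and `y₁, y₂` are `ℚ`-linearly independent pairs and all four products `x_i y_j` lie in
`ℚ + ℚ log 2 + ℚ iπ`, then the `2 × 2` determinant of their `log 2` coordinates is not zero.
-/

namespace Pool.Agent.Results.MP_69a055_nt.PlaneLogTwoPi

/-- **Main result.** -/
theorem result (x₁ x₂ y₁ y₂ : ℂ) (hx : LinearIndependent ℚ ![x₁, x₂]) (hy : LinearIndependent ℚ ![y₁, y₂])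
    (u v t z : Fin 3 → ℚ)
    (h11 : x₁ * y₁ = u 0 + u 1 * (Real.log 2 : ℂ) + u 2 * (Real.pi * Complex.I))
    (h12 : x₁ * y₂ = v 0 + v 1 * (Real.log 2 : ℂ) + v 2 * (Real.pi * Complex.I))
    (h21 : x₂ * y₁ = t 0 + t 1 * (Real.log 2 : ℂ) + t 2 * (Real.pi * Complex.I))
    (h22 : x₂ * y₂ = z 0 + z 1 * (Real.log 2 : ℂ) + z 2 * (Real.pi * Complex.I)) :
    u 1 * z 1 ≠ v 1 * t 1 :=
  Pool.Agent.LP.MS.four x₁ x₂ y₁ y₂ hx hy u v t z h11 h12 h21 h22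

end Pool.Agent.Results.MP_69a055_nt.PlaneLogTwoPi
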